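import Pool.Agent.Q67.VD3.Stm
import Pool.Agent.Q67.VD.Fields
import Pool.Agent.H459R3.NS.Sol

/-!
Lemma job L1 of project VD3 (helper67): the integral of the length of the vorticity (Constantin 1990).
-/

set_option autoImplicit false

open MeasureTheory Set Filter Topology
open scoped ContDiff
open H459R3.NS Pool.Agent.W268.NS Pool.Agent.Q67.VD

namespace Pool.Agent.Q129.VD3

noncomputable section

/-- components of the curl -/
def crl (v : Fin 3 → V → ℝ) (a b : Fin 3) (x : V) : ℝ := pd a (v b) x - pd b (v a) x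

/-- the stretching terms -/
def str (v : Fin 3 → V → ℝ) (a b : Fin 3) (x : V) : ℝ :=
  ∑ j, (pd a (v j) x * pd j (v b) x - pd b (v j) x * pd j (v a) x)

lemma sp_crl {v : Fin 3 → V → ℝ} (hv : ∀ i, SP (v i)) (a b : Fin 3) : SP (crl v a b) :=
  SP.sub' ((hv b).pd a) ((hv a).pd b)

lemma sp_str {v : Fin 3 → V → ℝ} (hv : ∀ i, SP (v i)) (a b : Fin 3) : SP (str v a b) :=
  SP.sum fun j _ => SP.sub' (((hv j).pd a).mul ((hv b).pd j)) (((hv j).pd b).mul ((hv a).pd j))

lemma pd_conv {v : Fin 3 → V → ℝ} (hv : ∀ i, SP (v i)) (a b : Fin 3) (x : V) :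
    pd a (conv v b) x = ∑ j, (v j x * pd a (pd j (v b)) x + pd a (v j) x * pd j (v b) x) := by
  have h := pd_sum (s := Finset.univ) (f := fun j y => v j y * pd j (v b) y)
    (fun j _ => (hv j).mul ((hv b).pd j)) a x
  refine h.trans (Finset.sum_congr rfl fun j _ => pd_mul (hv j) ((hv b).pd j) a x)

lemma pd_lap {f : V → ℝ} (hf : SP f) (a : Fin 3) (x : V) : pd a (lap f) x = lap (pd a f) x := by
  have h := pd_sum (s := Finset.univ) (f := fun j => pd j (pd j f))
    (fun j _ => (hf.pd j).pd j) a x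
  refine h.trans (Finset.sum_congr rfl fun j _ => ?_)
  rw [pd_comm (hf.pd j) a j, pd_comm hf a j]

lemma lap_sub {f g : V → ℝ} (hf : SP f) (hg : SP g) (x : V) :
    lap (fun y => f y - g y) x = lap f x - lap g x := by
  unfold lap
  rw [← Finset.sum_sub_distrib]
  refine Finset.sum_congr rfl fun j _ => ?_
  have h1 : pd j (fun y => f y - g y) = fun y => pd j f y - pd j g y :=
    funext fun y => pd_sub' hf hg j y
  rw [h1]
  exact pd_sub' (hf.pd j) (hg.pd j) j x

/-- the vorticity equation -/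
lemma crl_eq {v : Fin 3 → V → ℝ} (hv : ∀ i, SP (v i)) {q : V → ℝ} (hq : SP q)
    {τ : Fin 3 → V → ℝ} (ν : ℝ) (hτ : ∀ i x, τ i x = ν * lap (v i) x - conv v i x - pd i q x)
    (a b : Fin 3) (x : V) : crl τ a b x = ν * lap (crl v a b) x
      - (∑ j, v j x * pd j (crl v a b) x) - str v a b x := by
  have h1 : ∀ a b, pd a (τ b) x = ν * lap (pd a (v b)) x
      - (∑ j, (v j x * pd a (pd j (v b)) x + pd a (v j) x * pd j (v b) x)) - pd a (pd b q) x := by
    intro a b
    have e : τ b = fun x => (ν * lap (v b) x - conv v b x) - pd b q x := funext (hτ b)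
    rw [e, pd_sub' (SP.sub' ((hv b).lap.cmul ν) (sp_conv hv b)) (hq.pd b),
      pd_sub' ((hv b).lap.cmul ν) (sp_conv hv b), pd_cmul (hv b).lap, pd_lap (hv b), pd_conv hv]
  have h2 : lap (crl v a b) x = lap (pd a (v b)) x - lap (pd b (v a)) x :=
    lap_sub ((hv b).pd a) ((hv a).pd b) x
  have h3 : ∀ j, pd j (crl v a b) x = pd a (pd j (v b)) x - pd b (pd j (v a)) x := by
    intro j
    have := pd_sub' ((hv b).pd a) ((hv a).pd b) j x
    rw [pd_comm (hv b) a j, pd_comm (hv a) b j]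
    exact this
  have h4 : crl τ a b x = pd a (τ b) x - pd b (τ a) x := rfl
  rw [h4, h1, h1, h2, pd_comm hq a b]
  simp_rw [h3]
  unfold str
  simp only [Finset.sum_sub_distrib, Finset.sum_add_distrib, mul_sub]
  ring

/-! ### one time -/

/-- `√(|w|² + ε²)` -/
def qf (ε : ℝ) (w : Fin 3 → V → ℝ) (x : V) : ℝ := √(∑ i, w i x ^ 2 + ε ^ 2)

section

variable {ε : ℝ} (hε : 0 < ε) {w : Fin 3 → V → ℝ} (hw : ∀ i, SP (w i))

include hε in
lemma arg_pos (w : Fin 3 → V → ℝ) (x : V) : 0 < ∑ i, w i x ^ 2 + ε ^ 2 := by positivity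

include hε in
lemma qf_pos (w : Fin 3 → V → ℝ) (x : V) : 0 < qf ε w x := Real.sqrt_pos.2 (arg_pos hε w x)

include hε in
lemma qf_sq (w : Fin 3 → V → ℝ) (x : V) : qf ε w x ^ 2 = ∑ i, w i x ^ 2 + ε ^ 2 :=
  Real.sq_sqrt (arg_pos hε w x).le

include hw in
lemma sp_arg : SP (fun x => ∑ i, w i x ^ 2 + ε ^ 2) where
  smooth := (ContDiff.sum fun i _ => (hw i).smooth.pow 2).add contDiff_const
  per := fun j x => by
    simp only
    congr 1
    refine Finset.sum_congr rfl fun i _ => ?_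
    rw [(hw i).per j x]

include hε hw in
lemma sp_qf : SP (qf ε w) where
  smooth := (sp_arg (ε := ε) hw).smooth.sqrt fun x => (arg_pos hε w x).ne'
  per := fun j x => congrArg Real.sqrt ((sp_arg (ε := ε) hw).per j x)

include hε hw in
lemma pd_qf (j : Fin 3) (x : V) : pd j (qf ε w) x = (∑ i, w i x * pd j (w i) x) / qf ε w x := by
  have h1 : HasFDerivAt (fun y => ∑ i, w i y ^ 2 + ε ^ 2)
      (∑ i, (2 * w i x) • fderiv ℝ (w i) x) x := by
    refine HasFDerivAt.add_const _ ?_
    refine HasFDerivAt.fun_sum fun i _ => ?_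
    have := ((hw i).diff x).hasFDerivAt.pow 2
    refine this.congr_fderiv ?_
    simp
  have h2 := h1.sqrt (arg_pos hε w x).ne'
  unfold pd
  have h3 : fderiv ℝ (qf ε w) x = _ := h2.fderiv
  rw [h3]
  simp only [_root_.smul_apply, _root_.sum_apply, smul_eq_mul]
  have hq := qf_pos hε w x
  have : √(∑ i, w i x ^ 2 + ε ^ 2) = qf ε w x := rfl
  rw [this, Finset.mul_sum, Finset.sum_div]
  refine Finset.sum_congr rfl fun i _ => ?_
  field_simp

include hε hw in
lemma sp_inv : SP (fun x => (qf ε w x)⁻¹) where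
  smooth := (sp_qf hε hw).smooth.inv fun x => (qf_pos hε w x).ne'
  per := fun j x => by simp only [(sp_qf hε hw).per j x]

include hε hw in
lemma pd_inv (j : Fin 3) (x : V) :
    pd j (fun x => (qf ε w x)⁻¹) x = -pd j (qf ε w) x / qf ε w x ^ 2 := by
  unfold pd
  have h := (hasDerivAt_inv (qf_pos hε w x).ne').comp_hasFDerivAt x
    ((sp_qf hε hw).diff x).hasFDerivAt
  have h2 : fderiv ℝ (fun x => (qf ε w x)⁻¹) x = _ := h.fderiv
  rw [h2]
  simp only [_root_.smul_apply, smul_eq_mul]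
  ring

include hε in
lemma abs_le_qf (w : Fin 3 → V → ℝ) (i : Fin 3) (x : V) : |w i x| ≤ qf ε w x := by
  rw [← Real.sqrt_sq_eq_abs]
  refine Real.sqrt_le_sqrt ?_
  have := Finset.single_le_sum (f := fun i => w i x ^ 2) (fun i _ => sq_nonneg _) (Finset.mem_univ i)
  nlinarith [sq_nonneg ε]

include hε hw in
/-- the diffusion term has the right sign -/
lemma lap_term : ∑ i, ∫ x in cube, lap (w i) x * (w i x * (qf ε w x)⁻¹) ≤ 0 := by
  have h1 : ∀ i, ∫ x in cube, lap (w i) x * (w i x * (qf ε w x)⁻¹)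
      = -∑ j, ∫ x in cube, pd j (w i) x * pd j (fun x => w i x * (qf ε w x)⁻¹) x := fun i =>
    int_lap_mul (hw i) ((hw i).mul (sp_inv hε hw))
  simp_rw [h1]
  rw [Finset.sum_neg_distrib, neg_nonpos, Finset.sum_comm]
  refine Finset.sum_nonneg fun j _ => ?_
  rw [← integral_finsetSum _ fun i _ =>
    (((hw i).pd j).mul (((hw i).mul (sp_inv hε hw)).pd j)).int]
  refine integral_nonneg fun x => ?_
  simp only [Pi.zero_apply]
  have h2 : ∀ i, pd j (fun x => w i x * (qf ε w x)⁻¹) x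
      = pd j (w i) x * (qf ε w x)⁻¹ - w i x * (∑ i, w i x * pd j (w i) x) / qf ε w x ^ 3 := by
    intro i
    have hq := qf_pos hε w x
    rw [pd_mul (hw i) (sp_inv hε hw), pd_inv hε hw, pd_qf hε hw]
    field_simp
    ring
  simp_rw [h2]
  set q := qf ε w x with hqd
  have hq : 0 < q := qf_pos hε w x
  have hq2 : q ^ 2 = ∑ i, w i x ^ 2 + ε ^ 2 := qf_sq hε w x
  have e : ∑ i, pd j (w i) x * (pd j (w i) x * q⁻¹ - w i x * (∑ i, w i x * pd j (w i) x) / q ^ 3)
      = (q ^ 2 * (∑ i, pd j (w i) x ^ 2) - (∑ i, w i x * pd j (w i) x) ^ 2) / q ^ 3 := by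
    rw [eq_div_iff (by positivity), Finset.sum_mul, Finset.mul_sum, sq (∑ i, w i x * pd j (w i) x),
      Finset.sum_mul, ← Finset.sum_sub_distrib]
    refine Finset.sum_congr rfl fun i _ => ?_
    field_simp
  rw [e]
  refine div_nonneg ?_ (by positivity)
  have cs := Finset.sum_mul_sq_le_sq_mul_sq Finset.univ (fun i => w i x) (fun i => pd j (w i) x)
  rw [hq2]
  have h3 : 0 ≤ ε ^ 2 * ∑ i, pd j (w i) x ^ 2 :=
    mul_nonneg (sq_nonneg _) (Finset.sum_nonneg fun i _ => sq_nonneg _)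
  nlinarith

end

/-- the transport term vanishes -/
lemma tr_term {v : Fin 3 → V → ℝ} (hv : ∀ i, SP (v i)) (hdiv : ∀ x, ∑ i, pd i (v i) x = 0)
    {g : V → ℝ} (hg : SP g) : ∑ j, ∫ x in cube, v j x * pd j g x = 0 := by
  have h1 : ∀ j, ∫ x in cube, v j x * pd j g x = -∫ x in cube, g x * pd j (v j) x := by
    intro j
    rw [← ibp hg (hv j) j]
    congr 1
    funext x
    ring
  simp_rw [h1]
  rw [Finset.sum_neg_distrib, ← integral_finsetSum _ fun j _ => (hg.mul ((hv j).pd j)).int]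
  simp_rw [← Finset.mul_sum, hdiv]
  simp

/-- the indices of the curl -/
def aI : Fin 3 → Fin 3 := ![1, 2, 0]

/-- the indices of the curl -/
def bI : Fin 3 → Fin 3 := ![2, 0, 1]

lemma vort_eq (v : V → V) (x : V) (i : Fin 3) :
    vort v x i = crl (fun i y => v y i) (aI i) (bI i) x := by
  fin_cases i <;> rfl

lemma ab_le {x y S : ℝ} (hx : x ^ 2 ≤ S) (hy : y ^ 2 ≤ S) : |x * y| ≤ S := by
  rw [abs_le]
  constructor <;> nlinarith [sq_nonneg (x + y), sq_nonneg (x - y)]

/-- the stretching terms are quadratic -/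
lemma str_le (v : Fin 3 → V → ℝ) (a b : Fin 3) (x : V) :
    |str v a b x| ≤ 6 * ∑ i, ∑ j, pd j (v i) x ^ 2 := by
  set S := ∑ i, ∑ j, pd j (v i) x ^ 2 with hS
  have hs : ∀ i j, pd j (v i) x ^ 2 ≤ S := by
    intro i j
    have h1 := Finset.single_le_sum (f := fun j => pd j (v i) x ^ 2) (fun j _ => sq_nonneg _)
      (Finset.mem_univ j)
    have h2 := Finset.single_le_sum (f := fun i => ∑ j, pd j (v i) x ^ 2)
      (fun i _ => Finset.sum_nonneg fun j _ => sq_nonneg _) (Finset.mem_univ i)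
    linarith
  unfold str
  refine (Finset.abs_sum_le_sum_abs _ _).trans ?_
  calc ∑ j, |pd a (v j) x * pd j (v b) x - pd b (v j) x * pd j (v a) x|
      ≤ ∑ _j : Fin 3, (S + S) := by
        refine Finset.sum_le_sum fun j _ => ?_
        refine (abs_sub _ _).trans (add_le_add (ab_le (hs _ _) (hs _ _)) (ab_le (hs _ _) (hs _ _)))
    _ = 6 * S := by simp; ring

/-- the inequality at one time -/
lemma one_time {ν ε : ℝ} (hν : 0 < ν) (hε : 0 < ε) {v : Fin 3 → V → ℝ} (hv : ∀ i, SP (v i))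
    (hdiv : ∀ x, ∑ i, pd i (v i) x = 0) {q : V → ℝ} (hq : SP q) {τ : Fin 3 → V → ℝ}
    (hτ : ∀ i x, τ i x = ν * lap (v i) x - conv v i x - pd i q x) :
    ∫ x in cube, (∑ i, crl v (aI i) (bI i) x * crl τ (aI i) (bI i) x)
        / qf ε (fun i => crl v (aI i) (bI i)) x
      ≤ 18 * ∑ i, ∑ j, ∫ x in cube, pd j (v i) x ^ 2 := by
  set w : Fin 3 → V → ℝ := fun i => crl v (aI i) (bI i) with hwd
  have hw : ∀ i, SP (w i) := fun i => sp_crl hv _ _
  have hQ := sp_qf hε hw
  have hI := sp_inv hε hw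
  have e : ∀ x, (∑ i, crl v (aI i) (bI i) x * crl τ (aI i) (bI i) x) / qf ε w x
      = ν * (∑ i, lap (w i) x * (w i x * (qf ε w x)⁻¹)) - (∑ j, v j x * pd j (qf ε w) x)
        - ∑ i, (w i x * (qf ε w x)⁻¹) * str v (aI i) (bI i) x := by
    intro x
    have hqx := qf_pos hε w x
    have h1 : ∀ i, crl v (aI i) (bI i) x = w i x := fun i => rfl
    have h2 : ∀ i, crl τ (aI i) (bI i) x = ν * lap (w i) x - (∑ j, v j x * pd j (w i) x)
        - str v (aI i) (bI i) x := fun i => crl_eq hv hq ν hτ _ _ x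
    simp_rw [h1, h2, pd_qf hε hw]
    have h3 : ∑ j, v j x * ((∑ i, w i x * pd j (w i) x) / qf ε w x)
        = ∑ i, w i x * (qf ε w x)⁻¹ * ∑ j, v j x * pd j (w i) x := by
      simp_rw [Finset.mul_sum, Finset.sum_div, Finset.mul_sum]
      rw [Finset.sum_comm]
      refine Finset.sum_congr rfl fun i _ => Finset.sum_congr rfl fun j _ => ?_
      field_simp
    rw [h3, Finset.mul_sum, Finset.sum_div, ← Finset.sum_sub_distrib, ← Finset.sum_sub_distrib]
    refine Finset.sum_congr rfl fun i _ => ?_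
    field_simp
  simp_rw [e]
  have s1 : SP (fun x => ∑ i, lap (w i) x * (w i x * (qf ε w x)⁻¹)) :=
    SP.sum fun i _ => (hw i).lap.mul ((hw i).mul hI)
  have s2 : SP (fun x => ∑ j, v j x * pd j (qf ε w) x) := SP.sum fun j _ => (hv j).mul (hQ.pd j)
  have s3 : SP (fun x => ∑ i, (w i x * (qf ε w x)⁻¹) * str v (aI i) (bI i) x) :=
    SP.sum fun i _ => ((hw i).mul hI).mul (sp_str hv _ _)
  have i1 : IntegrableOn (fun x => ν * ∑ i, lap (w i) x * (w i x * (qf ε w x)⁻¹)) cube :=
    s1.int.const_mul ν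
  have i12 : IntegrableOn (fun x => ν * (∑ i, lap (w i) x * (w i x * (qf ε w x)⁻¹))
      - ∑ j, v j x * pd j (qf ε w) x) cube := i1.sub s2.int
  rw [integral_sub i12 s3.int, integral_sub i1 s2.int, integral_const_mul,
    integral_finsetSum _ fun i _ => ((hw i).lap.mul ((hw i).mul hI)).int,
    integral_finsetSum _ fun j _ => ((hv j).mul (hQ.pd j)).int, tr_term hv hdiv hQ, sub_zero]
  have t1 := lap_term hε hw
  have t2 : ν * ∑ i, ∫ x in cube, lap (w i) x * (w i x * (qf ε w x)⁻¹) ≤ 0 :=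
    mul_nonpos_of_nonneg_of_nonpos hν.le t1
  have t3 : -∫ x in cube, ∑ i, (w i x * (qf ε w x)⁻¹) * str v (aI i) (bI i) x
      ≤ 18 * ∑ i, ∑ j, ∫ x in cube, pd j (v i) x ^ 2 := by
    have e2 : (18 : ℝ) * ∑ i, ∑ j, ∫ x in cube, pd j (v i) x ^ 2
        = ∫ x in cube, 18 * ∑ i, ∑ j, pd j (v i) x ^ 2 := by
      rw [integral_const_mul]
      congr 1
      have hsq : ∀ i j, IntegrableOn (fun x => pd j (v i) x ^ 2) cube := fun i j => by
        have := (((hv i).pd j).mul ((hv i).pd j)).int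
        simpa [sq] using this
      rw [integral_finsetSum _ fun i _ => integrable_finsetSum _ fun j _ => hsq i j]
      refine Finset.sum_congr rfl fun i _ => ?_
      rw [integral_finsetSum _ fun j _ => hsq i j]
    rw [e2, ← integral_neg]
    refine integral_mono s3.int.neg ?_ fun x => ?_
    · have : SP (fun x => 18 * ∑ i, ∑ j, pd j (v i) x * pd j (v i) x) :=
        SP.cmul (SP.sum fun i _ => SP.sum fun j _ => ((hv i).pd j).mul ((hv i).pd j)) 18
      have h : Integrable (fun x => 18 * ∑ i, ∑ j, pd j (v i) x * pd j (v i) x)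
        (volume.restrict cube) := this.int
      simpa only [sq] using h
    · simp only
      have hqx := qf_pos hε w x
      have h1 : ∀ i, |(w i x * (qf ε w x)⁻¹) * str v (aI i) (bI i) x| ≤ 6 * ∑ i, ∑ j, pd j (v i) x ^ 2 := by
        intro i
        rw [abs_mul]
        have h2 : |w i x * (qf ε w x)⁻¹| ≤ 1 := by
          rw [abs_mul, abs_inv, abs_of_pos hqx]
          rw [← div_eq_mul_inv, div_le_one hqx]
          exact abs_le_qf hε w i x
        have h3 := str_le v (aI i) (bI i) x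
        calc |w i x * (qf ε w x)⁻¹| * |str v (aI i) (bI i) x| ≤ 1 * |str v (aI i) (bI i) x| :=
              mul_le_mul_of_nonneg_right h2 (abs_nonneg _)
          _ ≤ _ := by rw [one_mul]; exact h3
      calc -∑ i, (w i x * (qf ε w x)⁻¹) * str v (aI i) (bI i) x
          ≤ |∑ i, (w i x * (qf ε w x)⁻¹) * str v (aI i) (bI i) x| := neg_le_abs _
        _ ≤ ∑ i, |(w i x * (qf ε w x)⁻¹) * str v (aI i) (bI i) x| := Finset.abs_sum_le_sum_abs _ _
        _ ≤ ∑ _i : Fin 3, 6 * ∑ i, ∑ j, pd j (v i) x ^ 2 := Finset.sum_le_sum fun i _ => h1 i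
        _ = 18 * ∑ i, ∑ j, pd j (v i) x ^ 2 := by simp; ring
  linarith

/-! ### in time -/

section

variable {ν T : ℝ} {u : ℝ → V → V} {p : ℝ → V → ℝ}

/-- the curl in space-time -/
def wt (u : ℝ → V → V) (i : Fin 3) (s : ℝ) (x : V) : ℝ :=
  crl (fun i y => u s y i) (aI i) (bI i) x

lemma sm_wt (h : IsSol ν T u p) (i : Fin 3) :
    ContDiffOn ℝ ∞ (fun z : ℝ × V => wt u i z.1 z.2) (Ico 0 T ×ˢ univ) :=
  (contDiffOn_pd (f := fun s y => u s y (bI i)) (h.smooth_c _) (aI i)).sub
    (contDiffOn_pd (f := fun s y => u s y (aI i)) (h.smooth_c _) (bI i))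

lemma dt_wt (h : IsSol ν T u p) {t : ℝ} (ht : t ∈ Ioo 0 T) (i : Fin 3) (x : V) :
    HasDerivAt (fun s => wt u i s x)
      (crl (fun i => dt (fun s y => u s y i) t) (aI i) (bI i) x) t := by
  have h1 : ∀ a b : Fin 3, HasDerivAt (fun s => pd a (fun y => u s y b) x)
      (pd a (dt (fun s y => u s y b) t) x) t := by
    intro a b
    have h2 := contDiffOn_pd (f := fun s y => u s y b) (h.smooth_c b) a
    have h3 := hasDerivAt_slice (F := fun s x => pd a (fun y => u s y b) x)
      (mono_Ioo (f := fun s x => pd a (fun y => u s y b) x) h2 (by norm_cast)) ht x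
    rw [← H459R3.NS.dt_eq (f := fun s x => pd a (fun y => u s y b) x) h2 ht x] at h3
    rwa [dt_pd (f := fun s y => u s y b) (h.smooth_c b) ht a x] at h3
  exact (h1 _ _).sub (h1 _ _)

/-- the regularised integral -/
def HH (ε : ℝ) (u : ℝ → V → V) (s : ℝ) : ℝ := ∫ x in cube, qf ε (fun i => wt u i s) x

lemma sm_q {ε : ℝ} (hε : 0 < ε) (h : IsSol ν T u p) :
    ContDiffOn ℝ ∞ (fun z : ℝ × V => qf ε (fun i => wt u i z.1) z.2) (Ico 0 T ×ˢ univ) := by
  unfold qf
  refine ContDiffOn.sqrt ?_ fun z _ => (arg_pos hε (fun i => wt u i z.1) z.2).ne'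
  exact (ContDiffOn.sum fun i _ => (sm_wt h i).pow 2).add contDiffOn_const

lemma dt_q {ε : ℝ} (hε : 0 < ε) (h : IsSol ν T u p) {t : ℝ} (ht : t ∈ Ioo 0 T) (x : V) :
    HasDerivAt (fun s => qf ε (fun i => wt u i s) x)
      ((∑ i, wt u i t x * crl (fun i => dt (fun s y => u s y i) t) (aI i) (bI i) x)
        / qf ε (fun i => wt u i t) x) t := by
  have h1 : HasDerivAt (fun s => ∑ i, wt u i s x ^ 2 + ε ^ 2)
      (∑ i, 2 * (wt u i t x * crl (fun i => dt (fun s y => u s y i) t) (aI i) (bI i) x)) t := by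
    refine HasDerivAt.add_const _ ?_
    refine HasDerivAt.fun_sum fun i _ => ?_
    refine ((dt_wt h ht i x).pow 2).congr_deriv ?_
    push_cast
    ring
  have h2 := h1.sqrt (arg_pos hε (fun i => wt u i t) x).ne'
  refine h2.congr_deriv ?_
  have hq := qf_pos hε (fun i => wt u i t) x
  have : √(∑ i, wt u i t x ^ 2 + ε ^ 2) = qf ε (fun i => wt u i t) x := rfl
  rw [this, ← Finset.mul_sum]
  field_simp

lemma HH_deriv {ε : ℝ} (hν : 0 < ν) (hε : 0 < ε) (h : IsSol ν T u p) {t : ℝ} (ht : t ∈ Ioo 0 T) :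
    ∃ d : ℝ, HasDerivAt (HH ε u) d t ∧ d ≤ 18 * enstrophy (u t) := by
  have hI : t ∈ Ico 0 T := ⟨ht.1.le, ht.2⟩
  have h1 := hasDerivAt_int (F := fun s x => qf ε (fun i => wt u i s) x)
    (((sm_q hε h).of_le (by norm_cast)).mono (prod_mono Ioo_subset_Ico_self subset_rfl)) ht
  refine ⟨_, h1, ?_⟩
  have h2 : ∀ x, deriv (fun s => qf ε (fun i => wt u i s) x) t = _ := fun x => (dt_q hε h ht x).deriv
  simp_rw [h2]
  have h3 := one_time hν hε (v := fun i y => u t y i) (fun i => h.sp hI i) (h.divfree t hI) (h.sp_p hI)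
    (τ := fun i => dt (fun s y => u s y i) t) (fun i x => h.dt_eq ht i x)
  exact h3

end

theorem t_L1 : Pool.Agent.Q67.VD3.StmL1 := by
  refine ⟨9, by norm_num, ?_⟩
  intro ν T u p hν h T₀ t hT₀ hTt htT
  have key : ∀ ε : ℝ, 0 < ε → ∫ x in cube, om (u t) x ≤
      (∫ x in cube, om (u T₀) x) + 9 * energy (u T₀) / ν + ε := by
    intro ε hε
    have hcE := h.energy_continuousOn
    have hcH : ContinuousOn (HH ε u) (Ico 0 T) :=
      continuousOn_int (F := fun s x => qf ε (fun i => wt u i s) x) (sm_q hε h).continuousOn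
    have hsub : Icc T₀ t ⊆ Ico 0 T := fun s hs => ⟨hT₀.trans hs.1, hs.2.trans_lt htT⟩
    have hanti : AntitoneOn (fun s => HH ε u s + 9 / ν * energy (u s)) (Icc T₀ t) := by
      refine antitoneOn_of_deriv_nonpos (convex_Icc _ _)
        ((hcH.add (hcE.const_smul (9 / ν))).mono hsub) ?_ ?_
      · intro s hs
        rw [interior_Icc] at hs
        have hs' : s ∈ Ioo 0 T := ⟨hT₀.trans_lt hs.1, hs.2.trans htT⟩
        obtain ⟨d, hd, _⟩ := HH_deriv hν hε h hs'
        exact (hd.add ((h.energy_hasDerivAt hs').const_mul (9 / ν))).differentiableAt.differentiableWithinAt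
      · intro s hs
        rw [interior_Icc] at hs
        have hs' : s ∈ Ioo 0 T := ⟨hT₀.trans_lt hs.1, hs.2.trans htT⟩
        obtain ⟨d, hd, hle⟩ := HH_deriv hν hε h hs'
        have h1 := (hd.add ((h.energy_hasDerivAt hs').const_mul (9 / ν))).deriv
        have h2 : deriv (fun s => HH ε u s + 9 / ν * energy (u s)) s = _ := h1
        rw [h2]
        have h3 : 9 / ν * -(2 * ν * enstrophy (u s)) = -(18 * enstrophy (u s)) := by
          field_simp
          ring
        rw [h3]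
        linarith
    have h1 := hanti (left_mem_Icc.2 hTt) (right_mem_Icc.2 hTt) hTt
    simp only at h1
    have hen : 0 ≤ energy (u t) := by
      unfold energy
      exact Finset.sum_nonneg fun i _ => integral_nonneg fun x => sq_nonneg _
    have hsT0 : T₀ ∈ Ico 0 T := ⟨hT₀, hTt.trans_lt htT⟩
    have hst : t ∈ Ico 0 T := ⟨hT₀.trans hTt, htT⟩
    have hom : ∀ s x, om (u s) x = √(∑ i, wt u i s x ^ 2) := by
      intro s x
      unfold om len
      congr 1
      unfold dotProduct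
      refine Finset.sum_congr rfl fun i _ => ?_
      rw [vort_eq]
      unfold wt
      ring
    have hcont : ∀ s ∈ Ico 0 T, IntegrableOn (fun x => om (u s) x) cube := by
      intro s hs
      simp_rw [hom]
      refine integrableOn_cube ?_
      refine Real.continuous_sqrt.comp (continuous_finsetSum _ fun i _ => ?_)
      exact ((sp_crl (v := fun i y => u s y i) (fun i => h.sp hs i) _ _).cont).pow 2
    have hqi : ∀ s ∈ Ico 0 T, IntegrableOn (fun x => qf ε (fun i => wt u i s) x) cube := fun s hs =>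
      (sp_qf hε (w := fun i => wt u i s) fun i =>
        sp_crl (v := fun i y => u s y i) (fun i => h.sp hs i) _ _).int
    have h2 : ∫ x in cube, om (u t) x ≤ HH ε u t := by
      refine integral_mono (hcont t hst) (hqi t hst) fun x => ?_
      simp only
      rw [hom]
      refine Real.sqrt_le_sqrt ?_
      nlinarith [sq_nonneg ε]
    have h3 : HH ε u T₀ ≤ (∫ x in cube, om (u T₀) x) + ε := by
      have e1 : (∫ x in cube, om (u T₀) x) + ε = ∫ x in cube, (om (u T₀) x + ε) := by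
        have := cube_finite
        rw [integral_add (hcont T₀ hsT0) (integrable_const _)]
        simp [cube, Real.volume_Icc_pi, measureReal_def]
      rw [e1]
      have := cube_finite
      refine integral_mono (hqi T₀ hsT0) ((hcont T₀ hsT0).add (integrable_const _)) fun x => ?_
      simp only
      rw [hom]
      unfold qf
      rw [Real.sqrt_le_left (by positivity)]
      have hs0 : 0 ≤ ∑ i, wt u i T₀ x ^ 2 := Finset.sum_nonneg fun i _ => sq_nonneg _
      nlinarith [Real.sq_sqrt hs0, Real.sqrt_nonneg (∑ i, wt u i T₀ x ^ 2)]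
    have h4 : 0 ≤ 9 / ν * energy (u t) := by positivity
    have h5 : 9 * energy (u T₀) / ν = 9 / ν * energy (u T₀) := by ring
    rw [h5]
    linarith
  exact le_of_forall_pos_le_add key

end

end Pool.Agent.Q129.VD3
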